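import Pool.Agent.MP_856573_co.H74.Bas

/-! The two sides of a cycle in a triangulation. -/

namespace Pool.Agent.MP_856573_co.H74

open Set
open Pool.Agent.MP_31805c_co.H47 (Z2)
open Pool.Agent.MP_31805c_co.H93 (Conn)

namespace SidesAux

variable {V : Type} [DecidableEq V]

/-! ### Chains -/

/-- The indicator of an edge. -/
def ind (x y : V) (e : Sym2 V) : Z2 := if e = s(x, y) then 1 else 0

/-- The indicator of a vertex. -/
def pt (x v : V) : Z2 := if v = x then 1 else 0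

/-- The edges of a piece of the cycle. -/
def arc (c : ℕ → V) (a b : ℕ) (e : Sym2 V) : Z2 := ∑ i ∈ Finset.Ico a b, ind (c i) (c (i + 1)) e

theorem z2 (a : Z2) : a + a = 0 := CharTwo.add_self_eq_zero a

theorem ind_ne {x y : V} {e : Sym2 V} (h : ind x y e ≠ 0) : e = s(x, y) := by
  by_contra c
  exact h (if_neg c)

theorem arc_ne {c : ℕ → V} {a b : ℕ} {e : Sym2 V} (h : arc c a b e ≠ 0) :
    ∃ i, a ≤ i ∧ i < b ∧ e = s(c i, c (i + 1)) := by
  obtain ⟨i, hi, h⟩ := Finset.exists_ne_zero_of_sum_ne_zero h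
  rw [Finset.mem_Ico] at hi
  exact ⟨i, hi.1, hi.2, ind_ne h⟩

theorem arc_add (c : ℕ → V) {a b d : ℕ} (h1 : a ≤ b) (h2 : b ≤ d) (e : Sym2 V) :
    arc c a b e + arc c b d e = arc c a d e := Finset.sum_Ico_consecutive _ h1 h2

theorem arc_van {c : ℕ → V} {a b : ℕ} {v : V} (h : ∀ i, a ≤ i → i ≤ b → v ≠ c i) (w : V) :
    arc c a b s(v, w) = 0 := by
  by_contra hn
  obtain ⟨i, h1, h2, e⟩ := arc_ne hn
  rcases Sym2.eq_iff.1 e with e | e
  · exact h i h1 h2.le e.1
  · exact h (i + 1) (by omega) h2 e.1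

theorem sum_ind [Fintype V] {x y : V} (h : x ≠ y) (v : V) :
    ∑ w, ind x y s(v, w) = pt x v + pt y v := by
  unfold ind pt
  by_cases h1 : v = x
  · subst h1
    simp [h]
  · by_cases h2 : v = y
    · subst h2
      simp [h1]
    · simp [h1, h2]

theorem sum_arc [Fintype V] {c : ℕ → V} {a b : ℕ} (hab : a ≤ b) (h : ∀ i < b, c i ≠ c (i + 1))
    (v : V) : ∑ w, arc c a b s(v, w) = pt (c a) v + pt (c b) v := by
  induction b, hab using Nat.le_induction with
  | base => simp [arc, z2]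
  | succ b hab ih =>
    have e : ∀ w, arc c a (b + 1) s(v, w) = arc c a b s(v, w) + ind (c b) (c (b + 1)) s(v, w) :=
      fun w => Finset.sum_Ico_succ_top hab _
    simp only [e, Finset.sum_add_distrib]
    rw [ih fun i hi => h i (by omega), sum_ind (h b (by omega))]
    linear_combination z2 (pt (c b) v)

/-- `Z` is a chain of edges of `H` inside `W` from `x` to `y`. -/
structure Ch [Fintype V] (H : SimpleGraph V) (W : Set V) (x y : V) (Z : Sym2 V → Z2) : Prop where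
  sup : ∀ e, Z e ≠ 0 → ∃ u ∈ W, ∃ v ∈ W, H.Adj u v ∧ e = s(u, v)
  bd : ∀ v, ∑ w, Z s(v, w) = pt x v + pt y v

theorem exists_ch [Fintype V] {H : SimpleGraph V} {W : Set V} {x y : V} (h : Conn H W x y) :
    ∃ Z, Ch H W x y Z := by
  refine conn_ind (fun y => ∃ Z, Ch H W x y Z) h
    ⟨fun _ => 0, fun _ h => absurd rfl h, fun v => by simp [z2]⟩ ?_
  rintro a ha b hb - hab ⟨Z, hZ⟩
  refine ⟨fun e => Z e + ind a b e, fun e he => ?_, fun v => ?_⟩
  · by_cases h0 : Z e = 0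
    · rw [h0, zero_add] at he
      exact ⟨a, ha, b, hb, hab, ind_ne he⟩
    · exact hZ.sup e h0
  · rw [Finset.sum_add_distrib, hZ.bd, sum_ind hab.ne]
    linear_combination z2 (pt a v)

theorem Ch.van [Fintype V] {H : SimpleGraph V} {W : Set V} {x y : V} {Z : Sym2 V → Z2}
    (h : Ch H W x y Z) {v : V} (hv : v ∉ W) (w : V) : Z s(v, w) = 0 := by
  by_contra hn
  obtain ⟨a, ha, b, hb, -, e⟩ := h.sup _ hn
  rcases Sym2.eq_iff.1 e with e | e
  · exact hv (e.1 ▸ ha)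
  · exact hv (e.1 ▸ hb)

/-! ### Potentials on the faces -/

/-- `s` is a potential of `Z`. -/
def Pot (F : Finset (Finset V)) (Z : Sym2 V → Z2) (s : Finset V → Z2) : Prop :=
  ∀ u v, u ≠ v → ∀ f ∈ F, ∀ f' ∈ F, f ≠ f' → u ∈ f → v ∈ f → u ∈ f' → v ∈ f' →
    Z s(u, v) = s f + s f'

variable {G H : SimpleGraph V} {D : Finset V} {F : Finset (Finset V)} {Z Z' : Sym2 V → Z2}
  {s s' τ : Finset V → Z2} {c : ℕ → V} {n : ℕ} {b r : Z2}

omit [DecidableEq V] in
theorem Pot.add (h : Pot F Z s) (h' : Pot F Z' s') :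
    Pot F (fun e => Z e + Z' e) fun f => s f + s' f := by
  intro u v a f hf f' hf' a1 a2 a3 a4 a5
  simp only [h u v a f hf f' hf' a1 a2 a3 a4 a5, h' u v a f hf f' hf' a1 a2 a3 a4 a5]
  ring

theorem Pot.const (h : Pot F Z s) (T : Tri G D F) {v : V} (hv : ∀ w, Z s(v, w) = 0)
    {f f' : Finset V} (hf : f ∈ F) (hf' : f' ∈ F) (a : v ∈ f) (a' : v ∈ f') : s f' = s f := by
  refine T.lc v {g | s g = s f} ?_ f hf f' hf' a a' rfl
  rintro g hg g' hg' hgF a1 a2 ⟨w, a3, a4, a5⟩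
  by_cases e : g = g'
  · exact e ▸ hg
  have := h v w a3.symm g hgF g' hg' e a1 a4 a2 a5
  rw [hv, show s g = s f from hg] at this
  change s g' = s f
  linear_combination -this - z2 (s f) + z2 (s g') - z2 (s g')

theorem face_adj (T : Tri G D F) {f : Finset V} (hf : f ∈ F) {u v : V} (hu : u ∈ f) (hv : v ∈ f)
    (h : u ≠ v) : G.Adj u v ∧ u ∈ D ∧ v ∈ D :=
  ⟨(T.face f hf).2.1 hu hv h, (T.face f hf).1 hu, (T.face f hf).1 hv⟩

theorem two_faces (T : Tri G D F) {u v : V} (h : G.Adj u v) (hu : u ∈ D) (hv : v ∈ D) :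
    ∃ f f', f ≠ f' ∧ (F.filter fun g => u ∈ g ∧ v ∈ g) = {f, f'} ∧ f ∈ F ∧ u ∈ f ∧ v ∈ f ∧
      f' ∈ F ∧ u ∈ f' ∧ v ∈ f' ∧ ∀ g ∈ F, u ∈ g → v ∈ g → g = f ∨ g = f' := by
  obtain ⟨f, f', a, e⟩ := Finset.card_eq_two.1 (T.two u hu v hv h)
  have a1 : f ∈ F.filter fun g => u ∈ g ∧ v ∈ g := by simp [e]
  have a2 : f' ∈ F.filter fun g => u ∈ g ∧ v ∈ g := by simp [e]
  rw [Finset.mem_filter] at a1 a2
  refine ⟨f, f', a, e, a1.1, a1.2.1, a1.2.2, a2.1, a2.2.1, a2.2.2, fun g g1 g2 g3 => ?_⟩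
  have : g ∈ F.filter fun g => u ∈ g ∧ v ∈ g := Finset.mem_filter.2 ⟨g1, g2, g3⟩
  simpa [e] using this

theorem sum_faces [Fintype V] (T : Tri G D F) (φ : Finset V → Z2) (v : V) :
    ∑ w ∈ Finset.univ.erase v, ∑ f ∈ F.filter fun g => v ∈ g ∧ w ∈ g, φ f = 0 := by
  simp only [Finset.sum_filter]
  rw [Finset.sum_comm]
  refine Finset.sum_eq_zero fun f hf => ?_
  by_cases h : v ∈ f
  · have e : (Finset.univ.erase v).filter (fun w => v ∈ f ∧ w ∈ f) = f.erase v := by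
      ext w
      simp [h]
    rw [← Finset.sum_filter, e, Finset.sum_const, Finset.card_erase_of_mem h, (T.face f hf).2.2]
    exact (two_nsmul _).trans (z2 _)
  · simp [h]

/-- The cycle `c 0, …, c n = c 0` with its potential `τ`; the edges of `H` lie on the side `b`. -/
structure Cy (G H : SimpleGraph V) (D : Finset V) (F : Finset (Finset V)) (c : ℕ → V) (n : ℕ)
    (τ : Finset V → Z2) (b : Z2) : Prop where
  tri : Tri G D F
  three : 3 ≤ n
  inj : ∀ i ≤ n, ∀ j ≤ n, c i = c j → i = j ∨ (i = 0 ∧ j = n) ∨ (i = n ∧ j = 0)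
  adj : ∀ i < n, G.Adj (c i) (c (i + 1))
  mem : ∀ i ≤ n, c i ∈ D
  pot : Pot F (arc c 0 n) τ
  side : ∀ u v, H.Adj u v → G.Adj u v ∧ ∃ f ∈ F, τ f = b ∧ u ∈ f ∧ v ∈ f

/-- The value of `s` on the faces along the cycle on the other side. -/
def Out (F : Finset (Finset V)) (c : ℕ → V) (n : ℕ) (τ : Finset V → Z2) (b : Z2)
    (s : Finset V → Z2) (r : Z2) : Prop :=
  ∀ j < n, ∀ f ∈ F, τ f ≠ b → c j ∈ f → c (j + 1) ∈ f → s f = r

theorem arc_edge (three : 3 ≤ n)
    (inj : ∀ i ≤ n, ∀ j ≤ n, c i = c j → i = j ∨ (i = 0 ∧ j = n) ∨ (i = n ∧ j = 0)) {j : ℕ}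
    (hj : j < n) : arc c 0 n s(c j, c (j + 1)) = 1 := by
  rw [arc, Finset.sum_eq_single j]
  · exact if_pos rfl
  · intro i hi hij
    rw [Finset.mem_Ico] at hi
    refine if_neg fun e => ?_
    rcases Sym2.eq_iff.1 e with ⟨e1, e2⟩ | ⟨e1, e2⟩
    · have := inj _ (by omega) _ (by omega) e1
      omega
    · have := inj _ (by omega) _ (by omega) e1
      have := inj _ (by omega) _ (by omega) e2
      omega
  · intro h
    exact absurd (Finset.mem_Ico.2 ⟨Nat.zero_le _, hj⟩) h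

namespace Cy

variable (K : Cy G H D F c n τ b)
include K

theorem out_face {j : ℕ} (hj : j < n) : ∃ f ∈ F, τ f ≠ b ∧ c j ∈ f ∧ c (j + 1) ∈ f := by
  obtain ⟨f, f', a, -, a1, a2, a3, a4, a5, a6, -⟩ :=
    two_faces K.tri (K.adj j hj) (K.mem j hj.le) (K.mem _ hj)
  have := K.pot _ _ (K.adj j hj).ne f a1 f' a4 a a2 a3 a5 a6
  rw [arc_edge K.three K.inj hj] at this
  by_cases e : τ f = b
  · refine ⟨f', a4, fun e' => ?_, a5, a6⟩
    rw [e, e', z2] at this
    exact one_ne_zero this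
  · exact ⟨f, a1, e, a2, a3⟩

theorem key [Fintype V] (h : Pot F Z s)
    (hs : ∀ u v, Z s(u, v) ≠ 0 → H.Adj u v ∨ ∃ j < n, s(u, v) = s(c j, c (j + 1))) :
    ∃ r, Out F c n τ b s r := by
  have three := K.three
  set φ : Finset V → Z2 := fun f => if τ f = b then 0 else s f with hφ
  set ψ : V → V → Z2 := fun u v => ∑ f ∈ F.filter fun g => u ∈ g ∧ v ∈ g, φ f with hψ
  have off : ∀ u v, u ≠ v → (∀ j < n, s(u, v) ≠ s(c j, c (j + 1))) → ψ u v = 0 := by
    intro u v huv hn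
    by_cases he : ∃ g ∈ F, u ∈ g ∧ v ∈ g
    swap
    · exact Finset.sum_eq_zero fun g hg =>
        absurd ⟨g, (Finset.mem_filter.1 hg).1, (Finset.mem_filter.1 hg).2⟩ he
    obtain ⟨g, g1, g2, g3⟩ := he
    obtain ⟨b1, b2, b3⟩ := face_adj K.tri g1 g2 g3 huv
    obtain ⟨f, f', a, e, a1, a2, a3, a4, a5, a6, a7⟩ := two_faces K.tri b1 b2 b3
    have e1 := K.pot _ _ huv f a1 f' a4 a a2 a3 a5 a6
    have e0 : arc c 0 n s(u, v) = 0 := by
      by_contra hc
      obtain ⟨i, -, hi, e⟩ := arc_ne hc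
      exact hn i hi e
    have e2 : τ f' = τ f := by linear_combination e0 - e1 - z2 (τ f)
    simp only [hψ, e, Finset.sum_pair a, hφ, e2]
    split_ifs with hb
    · exact add_zero _
    rw [← h _ _ huv f a1 f' a4 a a2 a3 a5 a6]
    by_contra hc
    rcases hs u v hc with d | ⟨j, hj, d⟩
    · obtain ⟨-, g, g1, g0, g2, g3⟩ := K.side u v d
      rcases a7 g g1 g2 g3 with rfl | rfl
      · exact hb g0
      · exact hb (e2 ▸ g0)
    · exact hn j hj d
  have step : ∀ j, j + 1 < n → ψ (c (j + 1)) (c (j + 2)) = ψ (c j) (c (j + 1)) := by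
    intro j hj
    have e := sum_faces K.tri φ (c (j + 1))
    have n1 : c j ≠ c (j + 2) := fun e => by
      have := K.inj _ (by omega) _ (by omega) e
      omega
    rw [Finset.sum_eq_add_of_mem (c j) (c (j + 2))
      (Finset.mem_erase.2 ⟨(K.adj j (by omega)).ne, Finset.mem_univ _⟩)
      (Finset.mem_erase.2 ⟨(K.adj (j + 1) hj).ne', Finset.mem_univ _⟩) n1] at e
    · have e' : ψ (c j) (c (j + 1)) = ψ (c (j + 1)) (c j) := by simp only [hψ, and_comm]
      rw [e']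
      change ψ (c (j + 1)) (c j) + ψ (c (j + 1)) (c (j + 2)) = 0 at e
      linear_combination e - z2 (ψ (c (j + 1)) (c j))
    · intro w hw hw'
      refine off _ _ (Finset.mem_erase.1 hw).1.symm fun i hi d => ?_
      rcases Sym2.eq_iff.1 d with ⟨d1, d2⟩ | ⟨d1, d2⟩
      · have := K.inj _ (by omega) _ (by omega) d1
        obtain rfl : i = j + 1 := by omega
        exact hw'.2 d2
      · have := K.inj _ (by omega) _ (by omega) d1
        obtain rfl : i = j := by omega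
        exact hw'.1 d2
  have all : ∀ j < n, ψ (c j) (c (j + 1)) = ψ (c 0) (c 1) := by
    intro j
    induction j with
    | zero => exact fun _ => rfl
    | succ j ih => exact fun hj => (step j hj).trans (ih (by omega))
  refine ⟨ψ (c 0) (c 1), fun j hj g g1 g0 g2 g3 => ?_⟩
  rw [← all j hj]
  obtain ⟨f, f', a, e, a1, a2, a3, a4, a5, a6, a7⟩ :=
    two_faces K.tri (K.adj j hj) (K.mem j hj.le) (K.mem _ hj)
  have e1 := K.pot _ _ (K.adj j hj).ne f a1 f' a4 a a2 a3 a5 a6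
  rw [arc_edge K.three K.inj hj] at e1
  have z : ∀ x y b : Z2, 1 = x + y → (x ≠ b → y = b) ∧ (y ≠ b → x = b) := by decide
  simp only [hψ, e, Finset.sum_pair a, hφ]
  rcases a7 g g1 g2 g3 with rfl | rfl
  · rw [if_neg g0, if_pos ((z _ _ b e1).1 g0), add_zero]
  · rw [if_neg g0, if_pos ((z _ _ b e1).2 g0), zero_add]

theorem loop [Fintype V] (tb : StmtTB) (he : ∀ v, ∑ w, Z s(v, w) = 0)
    (hs : ∀ e, Z e ≠ 0 → (∃ u v, H.Adj u v ∧ e = s(u, v)) ∨ ∃ j < n, e = s(c j, c (j + 1))) :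
    ∃ s r, Pot F Z s ∧ Out F c n τ b s r := by
  obtain ⟨s, h⟩ := tb.prim V G D F K.tri Z (fun e h => by
    rcases hs e h with ⟨u, v, a, rfl⟩ | ⟨j, hj, rfl⟩
    · obtain ⟨-, f, a1, -, a2, a3⟩ := K.side u v a
      exact face_adj K.tri a1 a2 a3 a.ne
    · exact ⟨K.adj j hj, K.mem j hj.le, K.mem _ hj⟩) he
  obtain ⟨r, hr⟩ := K.key (Z := Z) (s := s) h fun u v h => (hs _ h).imp_left fun ⟨x, y, a, e⟩ => by
    rw [← SimpleGraph.mem_edgeSet, e]
    exact a
  exact ⟨s, r, h, hr⟩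

theorem at0 (h : Pot F Z s) (ho : Out F c n τ b s r) {j : ℕ} (hj : j < n)
    (hv : ∀ w, Z s(c j, w) = 0) : ∀ f ∈ F, c j ∈ f → s f = r := by
  intro f hf a
  obtain ⟨g, g1, g0, g2, g3⟩ := K.out_face hj
  rw [← ho j hj g g1 g0 g2 g3]
  exact h.const K.tri hv g1 hf g2 a

theorem at1 (h : Pot F Z s) (ho : Out F c n τ b s r) {j : ℕ} (hj : j < n)
    (hv : ∀ w, Z s(c j, w) = arc c 0 n s(c j, w)) {f : Finset V} (hf : f ∈ F) (a : c j ∈ f)
    (hb : τ f = b) : s f ≠ r := by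
  obtain ⟨g, g1, g0, g2, g3⟩ := K.out_face hj
  have := (h.add K.pot).const K.tri (v := c j) (fun w => by rw [hv, z2]) g1 hf g2 a
  rw [ho j hj g g1 g0 g2 g3, hb] at this
  intro e
  rw [e] at this
  exact g0 (add_left_cancel this).symm

theorem spread (h : Pot F Z s) {W : Set V} (hW : ∀ v ∈ W, ∀ w, Z s(v, w) = 0) {x y : V}
    (hc : Conn H W x y) (hx : ∀ f ∈ F, x ∈ f → s f = r) : ∀ f ∈ F, y ∈ f → s f = r := by
  refine conn_ind (fun y => ∀ f ∈ F, y ∈ f → s f = r) hc hx ?_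
  intro u _ v hv _ a ih f hf a'
  obtain ⟨-, g, g1, -, g2, g3⟩ := K.side u v a
  rw [← ih g g1 g2]
  exact h.const K.tri (hW v hv) g1 hf g3 a'

theorem ne_of {i j : ℕ} (h0 : 0 < i) (hi : i < n) (hj : j ≤ n) (h : i ≠ j) : c i ≠ c j :=
  fun e => by
    have := K.inj _ hi.le _ hj e
    omega

theorem arc_mid {x y z : ℕ} (h1 : x < y) (h2 : y < z) (h3 : z ≤ n) (w : V) :
    arc c x z s(c y, w) = arc c 0 n s(c y, w) := by
  rw [← arc_add c (Nat.zero_le x) (show x ≤ n by omega), ← arc_add c (show x ≤ z by omega) h3,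
    arc_van (a := 0) (b := x) fun i _ _ => K.ne_of (by omega) (by omega) (by omega) (by omega),
    arc_van (a := z) (b := n) fun i _ _ => K.ne_of (by omega) (by omega) (by omega) (by omega),
    zero_add, add_zero]

theorem nc [Fintype V] (tb : StmtTB) {A A' : Set V} {x y z t : ℕ} (hd : Disjoint A A')
    (hA : ∀ i ≤ n, c i ∉ A) (hA' : ∀ i ≤ n, c i ∉ A') (h0 : 0 < x) (h1 : x < y) (h2 : y < z)
    (h3 : z < t) (h4 : t < n) (c1 : Conn H (A ∪ {c x, c z}) (c x) (c z))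
    (c2 : Conn H (A' ∪ {c y, c t}) (c y) (c t)) : False := by
  obtain ⟨P, hP⟩ := exists_ch c1
  obtain ⟨s, r, hs, ho⟩ := K.loop (Z := fun e => P e + arc c x z e) tb (fun v => by
    rw [Finset.sum_add_distrib, hP.bd, sum_arc (by omega) fun i hi => (K.adj i (by omega)).ne, z2])
    fun e he => by
      by_cases h : P e = 0
      · rw [h, zero_add] at he
        obtain ⟨i, -, hi, d⟩ := arc_ne he
        exact Or.inr ⟨i, by omega, d⟩
      · obtain ⟨u, -, v, -, a, d⟩ := hP.sup e h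
        exact Or.inl ⟨u, v, a, d⟩
  have vP : ∀ i, 0 < i → i < n → i ≠ x → i ≠ z → ∀ w, P s(c i, w) = 0 := by
    intro i a1 a2 a3 a4
    refine hP.van ?_
    rintro (d | d | d)
    · exact hA i a2.le d
    · exact K.ne_of a1 a2 (by omega) a3 d
    · exact K.ne_of a1 a2 (by omega) a4 d
  have vt : ∀ w, P s(c t, w) + arc c x z s(c t, w) = 0 := fun w => by
    rw [vP t (by omega) h4 (by omega) (by omega),
      arc_van fun i _ _ => K.ne_of (by omega) (by omega) (by omega) (by omega), add_zero]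
  obtain ⟨u, v, d1, -, -, rfl, d2⟩ := conn_exit (X := {c y}) c2.symm
    (K.ne_of (by omega) h4 (by omega) (by omega)) rfl
  obtain ⟨-, g, g1, g0, g2, g3⟩ := K.side _ _ d2
  refine K.at1 hs ho (j := y) (by omega) (fun w => ?_) g1 g3 g0
    (K.spread hs ?_ d1 (K.at0 hs ho h4 vt) g g1 g2)
  · rw [vP y (by omega) (by omega) (by omega) (by omega), zero_add, K.arc_mid h1 h2 (by omega)]
  · rintro v ⟨d | d | rfl, d'⟩ w
    · rw [hP.van, arc_van (c := c) (a := x) (b := z) (v := v) fun i _ _ e =>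
        hA' i (by omega) (e ▸ d), add_zero]
      rintro (e | rfl | rfl)
      · exact disjoint_left.1 hd e d
      · exact hA' x (by omega) d
      · exact hA' z (by omega) d
    · exact absurd d d'
    · exact vt w

theorem n3 [Fintype V] (tb : StmtTB) {A A' : Set V} {x y z : ℕ} (hd : Disjoint A A')
    (hA : ∀ i ≤ n, c i ∉ A) (hA' : ∀ i ≤ n, c i ∉ A') (cA : Cn H A) (cA' : Cn H A') (h0 : 0 < x)
    (h1 : x < y) (h2 : y < z) (h3 : z < n)
    (hs : ∀ i, i = x ∨ i = y ∨ i = z → SA H A {c i} ∧ SA H A' {c i}) : False := by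
  obtain ⟨k, hk, -⟩ := (hs x (Or.inl rfl)).1
  have ex : ∀ i, i = x ∨ i = y ∨ i = z → ∃ R, Ch H (A ∪ {c i}) k (c i) R := fun i hi =>
    exists_ch (cA.union (cn_single _) (hs i hi).1 k (Or.inl hk) _ (Or.inr rfl))
  obtain ⟨g, g1, g0, g2, u, hu, g3⟩ : ∃ g ∈ F, τ g = b ∧ c y ∈ g ∧ ∃ u ∈ A', u ∈ g := by
    obtain ⟨u, hu, _, rfl, a⟩ := (hs y (Or.inr (Or.inl rfl))).2
    obtain ⟨-, g, g1, g0, g2, g3⟩ := K.side _ _ a
    exact ⟨g, g1, g0, g3, u, hu, g2⟩
  have vR : ∀ i R, Ch H (A ∪ {c i}) k (c i) R → ∀ j, 0 < j → j < n → i ≤ n → j ≠ i →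
      ∀ w, R s(c j, w) = 0 := by
    intro i R hR j a1 a2 a3 a4
    refine hR.van ?_
    rintro (d | d)
    · exact hA j a2.le d
    · exact K.ne_of a1 a2 a3 a4 d
  have main : ∀ i j l R R', Ch H (A ∪ {c i}) k (c i) R → Ch H (A ∪ {c j}) k (c j) R' → i ≤ j →
      j < n → 0 < l → l < n → (l < i ∨ j < l) → SA H A' {c l} →
      ∃ s r, Pot F (fun e => R e + R' e + arc c i j e) s ∧ Out F c n τ b s r ∧ s g = r := by
    intro i j l R R' hR hR' a1 a2 a3 a4 a5 a6
    obtain ⟨s, r, hp, ho⟩ := K.loop (Z := fun e => R e + R' e + arc c i j e) tb (fun v => by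
      rw [Finset.sum_add_distrib, Finset.sum_add_distrib, hR.bd, hR'.bd,
        sum_arc a1 fun i hi => (K.adj i (by omega)).ne]
      linear_combination z2 (pt k v) + z2 (pt (c i) v) + z2 (pt (c j) v))
      fun e he => by
        by_cases h : R e = 0
        · by_cases h' : R' e = 0
          · rw [h, h', zero_add, zero_add] at he
            obtain ⟨i, -, hi, d⟩ := arc_ne he
            exact Or.inr ⟨i, by omega, d⟩
          · obtain ⟨u, -, v, -, a, d⟩ := hR'.sup e h'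
            exact Or.inl ⟨u, v, a, d⟩
        · obtain ⟨u, -, v, -, a, d⟩ := hR.sup e h
          exact Or.inl ⟨u, v, a, d⟩
    have vl : ∀ w, R s(c l, w) + R' s(c l, w) + arc c i j s(c l, w) = 0 := fun w => by
      rw [vR i R hR l a3 a4 (by omega) (by omega), vR j R' hR' l a3 a4 (by omega) (by omega),
        arc_van fun i _ _ => K.ne_of a3 a4 (by omega) (by omega), add_zero, add_zero]
    refine ⟨s, r, hp, ho, K.spread hp ?_
      (cA'.union (cn_single _) a6 _ (Or.inr rfl) u (Or.inl hu)) (K.at0 hp ho a4 vl) g g1 g3⟩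
    rintro v (d | rfl) w
    · rw [hR.van, hR'.van, arc_van (c := c) (a := i) (b := j) (v := v) fun i _ _ e =>
        hA' i (by omega) (e ▸ d), add_zero, add_zero]
      · rintro (e | rfl)
        · exact disjoint_left.1 hd e d
        · exact hA' j (by omega) d
      · rintro (e | rfl)
        · exact disjoint_left.1 hd e d
        · exact hA' i (by omega) d
    · exact vl w
  obtain ⟨R1, r1⟩ := ex x (Or.inl rfl)
  obtain ⟨R2, r2⟩ := ex y (Or.inr (Or.inl rfl))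
  obtain ⟨R3, r3⟩ := ex z (Or.inr (Or.inr rfl))
  obtain ⟨s, r, p1, o1, e1⟩ := main x y z R1 R2 r1 r2 h1.le (by omega) (by omega) h3 (Or.inr h2)
    (hs z (Or.inr (Or.inr rfl))).2
  obtain ⟨s', r', p2, o2, e2⟩ := main y z x R2 R3 r2 r3 h2.le h3 h0 (by omega) (Or.inl h1)
    (hs x (Or.inl rfl)).2
  refine K.at1 (p1.add p2) (r := r + r') (fun j hj f a1 a2 a3 a4 => ?_) (j := y) (by omega)
    (fun w => ?_) g1 g2 g0 (by rw [e1, e2])
  · simp only [o1 j hj f a1 a2 a3 a4, o2 j hj f a1 a2 a3 a4]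
  · rw [vR x R1 r1 y (by omega) (by omega) (by omega) (by omega),
      vR z R3 r3 y (by omega) (by omega) (by omega) (by omega), ← K.arc_mid h1 h2 h3.le,
      ← arc_add c h1.le h2.le]
    linear_combination z2 (R2 s(c y, w))

end Cy

/-- The cycle through `t` and the path. -/
def cyc (q : ℕ → V) (m : ℕ) (t : V) (i : ℕ) : V := if i = 0 ∨ i = m + 2 then t else q (i - 1)

omit [DecidableEq V] in
theorem cyc_succ (q : ℕ → V) {m : ℕ} (t : V) {i : ℕ} (hi : i ≤ m) : cyc q m t (i + 1) = q i :=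
  if_neg (by omega)

omit [DecidableEq V] in
theorem cyc_cases (q : ℕ → V) (m : ℕ) (t : V) {i : ℕ} (hi : i ≤ m + 2) :
    ((i = 0 ∨ i = m + 2) ∧ cyc q m t i = t) ∨ ∃ j ≤ m, i = j + 1 ∧ cyc q m t i = q j := by
  by_cases h : i = 0 ∨ i = m + 2
  · exact Or.inl ⟨h, if_pos h⟩
  · exact Or.inr ⟨i - 1, by omega, by omega, if_neg h⟩

end SidesAux

open SidesAux in
theorem sides : StmtSIDES := by
  intro tb V _ _ G D F q m t T hq hm hD ht a0 am
  have inj : ∀ i ≤ m + 2, ∀ j ≤ m + 2, cyc q m t i = cyc q m t j →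
      i = j ∨ (i = 0 ∧ j = m + 2) ∨ (i = m + 2 ∧ j = 0) := by
    intro i hi j hj e
    rcases cyc_cases q m t hi with ⟨a, b⟩ | ⟨x, a, a', b⟩ <;>
      rcases cyc_cases q m t hj with ⟨c, d⟩ | ⟨y, c, c', d⟩ <;> rw [b, d] at e
    · omega
    · exact absurd e.symm (hD y c).2
    · exact absurd e (hD x a).2
    · have := hq.inj x a y c e
      omega
  have adj : ∀ i < m + 2, G.Adj (cyc q m t i) (cyc q m t (i + 1)) := by
    intro i hi
    rcases i with _ | i
    · rw [cyc_succ q t (Nat.zero_le m)]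
      exact a0
    · rw [cyc_succ q t (show i ≤ m by omega)]
      by_cases h : i = m
      · rw [h, cyc, if_pos (Or.inr rfl)]
        exact am.symm
      · rw [cyc_succ q t (show i + 1 ≤ m by omega)]
        exact hq.adj i (by omega)
  have mem : ∀ i ≤ m + 2, cyc q m t i ∈ D ∧ cyc q m t i ∈ insert t (q '' Iic m) := by
    intro i hi
    rcases cyc_cases q m t hi with ⟨-, b⟩ | ⟨x, a, -, b⟩ <;> rw [b]
    · exact ⟨ht, Or.inl rfl⟩
    · exact ⟨(hD x a).1, Or.inr ⟨x, a, rfl⟩⟩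
  obtain ⟨τ, hτ⟩ := tb.prim V G D F T (arc (cyc q m t) 0 (m + 2)) (fun e h => by
    obtain ⟨j, -, hj, rfl⟩ := arc_ne h
    exact ⟨adj j hj, (mem j hj.le).1, (mem _ hj).1⟩) fun v => by
      rw [sum_arc (Nat.zero_le _) fun i hi => (adj i hi).ne, cyc, cyc, if_pos (Or.inl rfl),
        if_pos (Or.inr rfl), z2]
  have K : ∀ β : Bool, Cy G (Gs G F (fun f => decide (τ f = 1)) β) D F (cyc q m t) (m + 2) τ
      (if β then 1 else 0) := fun β =>
    ⟨T, by omega, inj, adj, fun i hi => (mem i hi).1, hτ, fun u v ⟨a, f, a1, a2, a3⟩ =>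
      ⟨a, f, a1, (by decide : ∀ (x : Z2) (β : Bool), decide (x = 1) = β →
        x = if β then 1 else 0) _ _ a2, a3⟩⟩
  refine ⟨fun f => decide (τ f = 1), fun i hi f hf f' hf' a a1 a2 a3 a4 => ?_,
    fun v hv f hf f' hf' a a' => ?_, fun β A A' a b c d h1 h2 h3 l1 l2 l3 l4 c1 c2 => ?_,
    fun β A A' a b c h1 h2 h3 c1 c2 l1 l2 l3 hs => ?_⟩
  · have e := arc_edge (by omega) inj (j := i + 1) (by omega)
    rw [cyc_succ q t hi.le, cyc_succ q t (show i + 1 ≤ m from hi),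
      hτ _ _ (hq.adj i hi).ne f hf f' hf' a a1 a2 a3 a4] at e
    exact (by decide : ∀ x y : Z2, x + y = 1 → decide (x = 1) ≠ decide (y = 1)) _ _ e
  · have := Pot.const (Z := arc (cyc q m t) 0 (m + 2)) hτ T
      (arc_van (v := v) fun i _ hi e => hv (e ▸ (mem i hi).2)) hf hf' a a'
    simp only [this]
  · refine (K β).nc tb (x := a + 1) (y := b + 1) (z := c + 1) (t := d + 1) h1
      (fun i hi e => disjoint_left.1 h2 e (mem i hi).2)
      (fun i hi e => disjoint_left.1 h3 e (mem i hi).2) (by omega) (by omega) (by omega) (by omega)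
      (by omega) ?_ ?_
    · rwa [cyc_succ q t (show a ≤ m by omega), cyc_succ q t (show c ≤ m by omega)]
    · rwa [cyc_succ q t (show b ≤ m by omega), cyc_succ q t l4]
  · refine (K β).n3 tb (x := a + 1) (y := b + 1) (z := c + 1) h1
      (fun i hi e => disjoint_left.1 h2 e (mem i hi).2)
      (fun i hi e => disjoint_left.1 h3 e (mem i hi).2) c1 c2 (by omega) (by omega) (by omega)
      (by omega) ?_
    rintro i (rfl | rfl | rfl)
    · rw [cyc_succ q t (show a ≤ m by omega)]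
      exact hs a (Or.inl rfl)
    · rw [cyc_succ q t (show b ≤ m by omega)]
      exact hs b (Or.inr (Or.inl rfl))
    · rw [cyc_succ q t l3]
      exact hs c (Or.inr (Or.inr rfl))

end Pool.Agent.MP_856573_co.H74
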